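import Pool.Agent.H19.KN.Targets

/-!
# Small units
-/

namespace Pool.Agent.H27.KN

open Pool.Agent.H62.MK Pool.Agent.H19.KN Polynomial Function

universe u

theorem pf_GRP : T_GRP.{u} := by
  intro F _ O π q E hG n hn
  obtain ⟨k, rfl⟩ : ∃ k, n = k + 1 := ⟨n - 1, by omega⟩
  have hpow : ∀ j : ℕ, π ^ j ∈ O := fun j => O.pow_mem hG.pi_mem j
  have hinv : ∀ a ∈ O, ∃ b ∈ O, (1 + π ^ (k + 1) * a) * b = 1 := by
    intro a ha
    obtain ⟨b, hb, hab⟩ := hG.jac (π ^ k * a) (O.mul_mem (hpow k) ha)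
    refine ⟨b, hb, ?_⟩
    linear_combination hab
  have hne : ∀ a ∈ O, 1 + π ^ (k + 1) * a ≠ 0 := by
    intro a ha h0
    obtain ⟨b, -, hab⟩ := hinv a ha
    rw [h0, zero_mul] at hab
    exact zero_ne_one hab
  have hinvmem : ∀ u ∈ Small π (k + 1) O, ∃ b ∈ O, ((u⁻¹ : Fˣ) : F) = b ∧
      ∀ a ∈ O, (u : F) = 1 + π ^ (k + 1) * a → b = 1 + π ^ (k + 1) * (-(a * b)) := by
    rintro u ⟨a, ha, hu⟩
    obtain ⟨b, hb, hab⟩ := hinv a ha
    have h1 : ((u⁻¹ : Fˣ) : F) = b := by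
      rw [Units.val_inv_eq_inv_val, hu]
      exact inv_eq_of_mul_eq_one_right hab
    refine ⟨b, hb, h1, ?_⟩
    intro a' _ hu'
    have h2 : (1 + π ^ (k + 1) * a') * b = 1 := by
      rw [← hu', hu]; exact hab
    linear_combination h2
  refine ⟨⟨0, O.zero_mem, by simp⟩, ?_, ?_, ?_, hne, ?_⟩
  · rintro u ⟨a, ha, hu⟩ v ⟨b, hb, hv⟩
    refine ⟨a + b + π ^ (k + 1) * (a * b),
      O.add_mem (O.add_mem ha hb) (O.mul_mem (hpow _) (O.mul_mem ha hb)), ?_⟩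
    rw [Units.val_mul, hu, hv]
    ring
  · intro u hu
    obtain ⟨b, hb, h1, h2⟩ := hinvmem u hu
    obtain ⟨a, ha, hua⟩ := hu
    refine ⟨-(a * b), O.neg_mem (O.mul_mem ha hb), ?_⟩
    rw [h1]
    exact h2 a ha hua
  · intro N hN u hu
    obtain ⟨a, ha, hua⟩ := hu
    refine ⟨π ^ (N - (k + 1)) * a, O.mul_mem (hpow _) ha, ?_⟩
    rw [hua, ← mul_assoc, ← pow_add]
    congr 3
    omega
  · intro u hu
    obtain ⟨b, hb, h1, -⟩ := hinvmem u hu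
    obtain ⟨a, ha, hua⟩ := hu
    refine ⟨?_, ?_⟩
    · rw [hua]
      exact O.add_mem O.one_mem (O.mul_mem (hpow _) ha)
    · rw [h1]; exact hb

end Pool.Agent.H27.KN
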