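import Pool.Agent.H19.KN.Targets

/-!
# Roots of small units
-/

namespace Pool.Agent.H27.KN

open Pool.Agent.H62.MK Pool.Agent.H19.KN Polynomial Function

universe u

/-- `(1 + y) ^ q = 1 + q y + y ^ 2 z` -/
theorem one_add_pow_form {F : Type u} [Field F] (O : Subring F) (y : F) (hy : y ∈ O) (q : ℕ) :
    ∃ z ∈ O, (1 + y) ^ q = 1 + q * y + y ^ 2 * z := by
  induction q with
  | zero => exact ⟨0, O.zero_mem, by simp⟩
  | succ q ih =>
    obtain ⟨z, hz, h⟩ := ih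
    refine ⟨z + q + y * z, O.add_mem (O.add_mem hz (natCast_mem O q)) (O.mul_mem hy hz), ?_⟩
    rw [pow_succ, h]
    push_cast
    ring

/-- one step -/
theorem root_step (hGRP : T_GRP.{u}) {F : Type u} [Field F] (O : Subring F) (π : F) (q E : ℕ)
    (hG : Good0 O π q E) (n : ℕ) (hn : 2 * E + 1 ≤ n) (u : Fˣ) (hu : u ∈ Small π n O) :
    ∃ v : Fˣ, ∃ u' ∈ Small π (n + 1) O, u = v ^ q * u' := by
  obtain ⟨-, -, -, -, -, h6⟩ := hGRP F O π q E hG n (by omega)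
  obtain ⟨-, huinv⟩ := h6 u hu
  obtain ⟨a, ha, hua⟩ := hu
  obtain ⟨ε, hε, ε', hε', hee, hq⟩ := hG.qeq
  obtain ⟨k, rfl⟩ : ∃ k, n = 2 * E + 1 + k := ⟨n - (2 * E + 1), by omega⟩
  have hpow : ∀ j : ℕ, π ^ j ∈ O := fun j => O.pow_mem hG.pi_mem j
  have hy0 : ε' * a ∈ O := O.mul_mem hε' ha
  have hy : π ^ (E + 1 + k) * (ε' * a) ∈ O := O.mul_mem (hpow _) hy0
  obtain ⟨z, hz, hz2⟩ := one_add_pow_form O _ hy q
  obtain ⟨-, -, -, -, hne, -⟩ := hGRP F O π q E hG (E + 1 + k) (by omega)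
  have hv0 : 1 + π ^ (E + 1 + k) * (ε' * a) ≠ 0 := hne _ hy0
  let v : Fˣ := Units.mk0 _ hv0
  -- `(1 + y) ^ q = u + π ^ (n + 1) c`
  have hc : (1 + π ^ (E + 1 + k) * (ε' * a)) ^ q =
      (u : F) + π ^ (2 * E + 1 + k + 1) * (π ^ k * ((ε' * a) ^ 2 * z)) := by
    rw [hz2, hua, hq]
    have e1 : ε * π ^ E * (π ^ (E + 1 + k) * (ε' * a)) = (ε * ε') * (π ^ (2 * E + 1 + k) * a) := by
      rw [show 2 * E + 1 + k = E + (E + 1 + k) by omega, pow_add π E (E + 1 + k)]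
      ring
    have e2 : (π ^ (E + 1 + k) * (ε' * a)) ^ 2 =
        π ^ (2 * E + 1 + k + 1) * (π ^ k * (ε' * a) ^ 2) := by
      rw [mul_pow, ← pow_mul, show (E + 1 + k) * 2 = (2 * E + 1 + k + 1) + k by omega,
        pow_add π (2 * E + 1 + k + 1) k]
      ring
    rw [e1, e2, hee]
    ring
  -- `u = v ^ q u'`
  obtain ⟨-, -, hinv', -, hne', -⟩ := hGRP F O π q E hG (2 * E + 1 + k + 1) (by omega)
  have hw : π ^ k * ((ε' * a) ^ 2 * z) * ((u⁻¹ : Fˣ) : F) ∈ O :=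
    O.mul_mem (O.mul_mem (hpow _) (O.mul_mem (O.pow_mem hy0 2) hz)) huinv
  have hw0 := hne' _ hw
  let t : Fˣ := Units.mk0 _ hw0
  have ht : t ∈ Small π (2 * E + 1 + k + 1) O := ⟨_, hw, rfl⟩
  refine ⟨v, t⁻¹, hinv' t ht, ?_⟩
  have hvt : v ^ q = u * t := by
    apply Units.ext
    rw [Units.val_pow_eq_pow_val, Units.val_mul]
    change (1 + π ^ (E + 1 + k) * (ε' * a)) ^ q = (u : F) * (1 + π ^ (2 * E + 1 + k + 1) *
      (π ^ k * ((ε' * a) ^ 2 * z) * ((u⁻¹ : Fˣ) : F)))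
    have h7 : (u : F) * ((u⁻¹ : Fˣ) : F) = 1 := u.mul_inv
    rw [hc]
    linear_combination (-(π ^ (2 * E + 1 + k + 1) * (π ^ k * ((ε' * a) ^ 2 * z)))) * h7
  rw [hvt, mul_inv_cancel_right]

theorem pf_ROOT (hGRP : T_GRP.{u}) : T_ROOT.{u} := by
  intro F _ O π q E hG _ n hn u hu M
  have key : ∀ j : ℕ, ∃ v : Fˣ, ∃ u' ∈ Small π (n + j) O, u = v ^ q * u' := by
    intro j
    induction j with
    | zero => exact ⟨1, u, hu, by simp⟩
    | succ j ih =>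
      obtain ⟨v, u', hu', h1⟩ := ih
      obtain ⟨v2, u2, hu2, h2⟩ := root_step hGRP O π q E hG (n + j) (by omega) u' hu'
      refine ⟨v * v2, u2, hu2, ?_⟩
      rw [h1, h2, mul_pow, mul_assoc]
  obtain ⟨v, u', hu', h⟩ := key M
  obtain ⟨-, -, -, hdec, -, -⟩ := hGRP F O π q E hG (n + M) (by omega)
  refine ⟨v, u', ?_, h⟩
  by_cases hM : 1 ≤ M
  · obtain ⟨-, -, -, hdec, -, -⟩ := hGRP F O π q E hG M hM
    exact hdec (n + M) (by omega) hu'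
  · obtain rfl : M = 0 := by omega
    obtain ⟨a, ha, hua⟩ := hu'
    refine ⟨π ^ (n + 0) * a, O.mul_mem (O.pow_mem hG.pi_mem _) ha, ?_⟩
    rw [hua, pow_zero, one_mul]

end Pool.Agent.H27.KN
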