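import Pool.Agent.H19.KN.Targets

/-!
# Elementary properties of the group of small symbols
-/

namespace Pool.Agent.H27.KN

open Pool.Agent.H62.MK Pool.Agent.H19.KN Polynomial Function

universe u

theorem usub_smul {F : Type u} [Field F] (S : Subring F) (π : F) (q n : ℕ) (m : ℕ)
    (x : MilnorK F m) : q • x ∈ USub q π n S m := by
  cases m with
  | zero => exact AddSubgroup.subset_closure ⟨x, rfl⟩
  | succ m => exact AddSubgroup.subset_closure (Or.inl ⟨x, rfl⟩)

theorem usub_cup_small {F : Type u} [Field F] (S : Subring F) (π : F) (q n : ℕ) (m : ℕ)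
    (u : Fˣ) (hu : u ∈ Small π n S) (y : MilnorK F m) : cup u y ∈ USub q π n S (m + 1) :=
  AddSubgroup.subset_closure (Or.inr ⟨u, hu, y, rfl⟩)

theorem usub_cup {F : Type u} [Field F] (S : Subring F) (π : F) (q n : ℕ) (m : ℕ) (g : Fˣ)
    (x : MilnorK F m) (hx : x ∈ USub q π n S m) : cup g x ∈ USub q π n S (m + 1) := by
  unfold USub at hx
  induction hx using AddSubgroup.closure_induction with
  | mem x hx =>
    cases m with
    | zero =>
      obtain ⟨y, rfl⟩ := hx
      rw [map_nsmul]
      exact usub_smul S π q n _ _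
    | succ m =>
      rcases hx with ⟨y, rfl⟩ | ⟨u, hu, y, rfl⟩
      · rw [map_nsmul]
        exact usub_smul S π q n _ _
      · rw [cup_anticomm]
        exact AddSubgroup.neg_mem _ (usub_cup_small S π q n _ u hu _)
  | zero => rw [map_zero]; exact AddSubgroup.zero_mem _
  | add x y _ _ hx hy => rw [map_add]; exact AddSubgroup.add_mem _ hx hy
  | neg x _ hx => rw [map_neg]; exact AddSubgroup.neg_mem _ hx

theorem usub_sym {F : Type u} [Field F] (S : Subring F) (π : F) (q n : ℕ) :
    ∀ m (a : Fin m → Fˣ) (i : Fin m), a i ∈ Small π n S → sym a ∈ USub q π n S m := by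
  intro m
  induction m with
  | zero => intro a i; exact i.elim0
  | succ m ih =>
    intro a i hi
    have h1 : sym a = cup (a 0) (sym (Fin.tail a)) := by
      rw [← sym_cons, Fin.cons_self_tail]
    rw [h1]
    induction i using Fin.cases with
    | zero => exact usub_cup_small S π q n m _ hi _
    | succ j => exact usub_cup S π q n m _ _ (ih (Fin.tail a) j hi)

theorem usub_mono {F : Type u} [Field F] (S : Subring F) (π : F) (q n : ℕ) (S' : Subring F)
    (n' : ℕ) (h : Small π n S ⊆ Small π n' S') (m : ℕ) : USub q π n S m ≤ USub q π n' S' m := by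
  unfold USub
  rw [AddSubgroup.closure_le]
  intro x hx
  cases m with
  | zero =>
    obtain ⟨y, rfl⟩ := hx
    exact usub_smul S' π q n' _ _
  | succ m =>
    rcases hx with ⟨y, rfl⟩ | ⟨u, hu, y, rfl⟩
    · exact usub_smul S' π q n' _ _
    · exact usub_cup_small S' π q n' _ u (h hu) _

theorem pf_UMEM : T_UMEM.{u} := by
  intro F _ S π q n
  exact ⟨fun m g x hx => usub_cup S π q n m g x hx, fun m u hu y => usub_cup_small S π q n m u hu y,
    fun m x => usub_smul S π q n m x, usub_sym S π q n, fun S' n' h m => usub_mono S π q n S' n' h m⟩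

theorem pf_UMAP : T_UMAP.{u} := by
  intro F L _ _ φ S S' π q n hφ m x hx
  unfold USub at hx
  induction hx using AddSubgroup.closure_induction with
  | mem x hx =>
    cases m with
    | zero =>
      obtain ⟨y, rfl⟩ := hx
      rw [map_nsmul]
      exact usub_smul S' (φ π) q n _ _
    | succ m =>
      rcases hx with ⟨y, rfl⟩ | ⟨u, ⟨a, ha, hu⟩, y, rfl⟩
      · rw [map_nsmul]
        exact usub_smul S' (φ π) q n _ _
      · rw [map_cup]
        refine usub_cup_small S' (φ π) q n _ _ ⟨φ a, hφ a ha, ?_⟩ _
        change φ (u : F) = _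
        rw [hu, map_add, map_one, map_mul, map_pow]
  | zero => rw [map_zero]; exact AddSubgroup.zero_mem _
  | add x y _ _ hx hy => rw [map_add]; exact AddSubgroup.add_mem _ hx hy
  | neg x _ hx => rw [map_neg]; exact AddSubgroup.neg_mem _ hx

theorem pf_UEQ (h : T_ROOT.{u}) : T_UEQ.{u} := by
  intro F _ O π q E hG hq n M m hn
  unfold USub
  rw [AddSubgroup.closure_le]
  intro x hx
  cases m with
  | zero =>
    obtain ⟨y, rfl⟩ := hx
    exact usub_smul O π q M _ _
  | succ m =>
    rcases hx with ⟨y, rfl⟩ | ⟨u, hu, y, rfl⟩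
    · exact usub_smul O π q M _ _
    · obtain ⟨v, u', hu', rfl⟩ := h F O π q E hG hq n hn u hu M
      have h1 : cup (v ^ q) y = q • cup v y := by
        have h2 := cup_zpow v (q : ℤ) y
        rw [zpow_natCast, natCast_zsmul] at h2
        exact h2
      rw [cup_mul, h1]
      exact AddSubgroup.add_mem _ (usub_smul O π q M _ _) (usub_cup_small O π q M _ u' hu' _)

end Pool.Agent.H27.KN
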